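import Pool.Agent.H91.CP.Colim
import Pool.Graph.R_pool_sql_team_seeded_64922ed1.X201.SH.Fin

/-!
# One level of a presentation by conjugation relations and Artin relations

`K κ Λ c R E` is generated by the group `Q` and coloured letters `i` of order `c` with the relations
`q i q⁻¹ = j` for `R q i j`, and the Artin relation of length `Λ (κ i) (κ j)` between `q i q⁻¹` and `j` for
`E q i j`. It embeds in the semidirect product with `Q` of a group `Sh M c`.
-/

set_option autoImplicit false
set_option linter.style.haveILetI false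
set_option linter.unusedSectionVars false

namespace Pool.Agent.H91.CZ

open Monoid
open Pool.Agent.Y110.FJ (ClosedE)
open Pool.Agent.Y462.SS (Closed)
open Pool.Agent.Helper741 (alt map_alt alt_zero)
open Pool.Agent.X201

/-- a symmetric matrix of labels on the set `B` of colours; `0` stands for infinity, and the diagonal
entries are labels, too -/
structure Lab (B : Type) where
  L : B → B → ℕ
  symm : ∀ a b, L a b = L b a
  ne_one : ∀ a b, L a b ≠ 1

open scoped Classical in
/-- the Coxeter matrix of a coloured set -/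
noncomputable def pull {B : Type} (Λ : Lab B) {A : Type} (κ : A → B) : CoxeterMatrix A where
  M := fun i j => if i = j then 1 else Λ.L (κ i) (κ j)
  isSymm := by
    refine Matrix.IsSymm.ext fun i j => ?_
    by_cases h : i = j
    · rw [if_pos h, if_pos h.symm]
    · rw [if_neg h, if_neg (fun h' => h h'.symm), Λ.symm]
  diagonal := fun i => if_pos rfl
  off_diagonal := by
    intro i j hij
    rw [if_neg hij]
    exact Λ.ne_one _ _

theorem pull_ne {B : Type} (Λ : Lab B) {A : Type} (κ : A → B) {i j : A} (h : i ≠ j) :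
    pull Λ κ i j = Λ.L (κ i) (κ j) := if_neg h

variable {Q : Type} [Group Q] {I B : Type} (κ : I → B) (Λ : Lab B) (c : ℕ) (R E : Q → I → I → Prop)

/-- the relators of one level -/
def kRel : Set (Coprod Q (FreeGroup I)) :=
  {x | (∃ q i j, R q i j ∧ κ i = κ j ∧
      x = Coprod.inl q * Coprod.inr (FreeGroup.of i) * (Coprod.inl q)⁻¹ *
      (Coprod.inr (FreeGroup.of j))⁻¹) ∨
    (∃ q i j, E q i j ∧
      x = alt (Coprod.inl q * Coprod.inr (FreeGroup.of i) * (Coprod.inl q)⁻¹)
        (Coprod.inr (FreeGroup.of j)) (Λ.L (κ i) (κ j)) *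
        (alt (Coprod.inr (FreeGroup.of j))
          (Coprod.inl q * Coprod.inr (FreeGroup.of i) * (Coprod.inl q)⁻¹) (Λ.L (κ i) (κ j)))⁻¹) ∨
    (∃ i, x = Coprod.inr (FreeGroup.of i) ^ c)}

/-- one level of a presentation -/
def K : Type := Coprod Q (FreeGroup I) ⧸ Subgroup.normalClosure (kRel κ Λ c R E)

namespace K

instance : Group (K κ Λ c R E) := inferInstanceAs (Group (_ ⧸ _))

/-- the elements of `Q` -/
def q : Q →* K κ Λ c R E :=
  (QuotientGroup.mk' (Subgroup.normalClosure (kRel κ Λ c R E))).comp Coprod.inl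

/-- the letters -/
def y (i : I) : K κ Λ c R E :=
  QuotientGroup.mk' (Subgroup.normalClosure (kRel κ Λ c R E)) (Coprod.inr (FreeGroup.of i))

variable {κ Λ c R E}

theorem rel1 {x : Coprod Q (FreeGroup I)} (hx : x ∈ kRel κ Λ c R E) :
    QuotientGroup.mk' (Subgroup.normalClosure (kRel κ Λ c R E)) x = 1 :=
  (QuotientGroup.eq_one_iff _).2 (Subgroup.subset_normalClosure hx)

theorem conj {a : Q} {i j : I} (h : R a i j) (hκ : κ i = κ j) :
    q κ Λ c R E a * y κ Λ c R E i * (q κ Λ c R E a)⁻¹ = y κ Λ c R E j := by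
  have h1 := rel1 (κ := κ) (Λ := Λ) (c := c) (R := R) (E := E) (Or.inl ⟨a, i, j, h, hκ, rfl⟩)
  rw [map_mul, map_inv, mul_inv_eq_one, map_mul, map_mul, map_inv] at h1
  exact h1

theorem art {a : Q} {i j : I} (h : E a i j) :
    alt (q κ Λ c R E a * y κ Λ c R E i * (q κ Λ c R E a)⁻¹) (y κ Λ c R E j) (Λ.L (κ i) (κ j)) =
      alt (y κ Λ c R E j) (q κ Λ c R E a * y κ Λ c R E i * (q κ Λ c R E a)⁻¹)
        (Λ.L (κ i) (κ j)) := by
  have h1 := rel1 (κ := κ) (Λ := Λ) (c := c) (R := R) (E := E) (Or.inr (Or.inl ⟨a, i, j, h, rfl⟩))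
  rw [map_mul, map_inv, mul_inv_eq_one, map_alt, map_alt, map_mul, map_mul, map_inv] at h1
  exact h1

theorem pow (i : I) : y κ Λ c R E i ^ c = 1 := by
  have h1 := rel1 (κ := κ) (Λ := Λ) (R := R) (E := E) (c := c) (Or.inr (Or.inr ⟨i, rfl⟩))
  rw [map_pow] at h1
  exact h1

variable {H : Type} [Group H]

/-- the universal property -/
def lift (f : Q →* H) (g : I → H) (h1 : ∀ a i j, R a i j → κ i = κ j → f a * g i * (f a)⁻¹ = g j)
    (h2 : ∀ a i j, E a i j → alt (f a * g i * (f a)⁻¹) (g j) (Λ.L (κ i) (κ j)) =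
      alt (g j) (f a * g i * (f a)⁻¹) (Λ.L (κ i) (κ j))) (h3 : ∀ i, g i ^ c = 1) :
    K κ Λ c R E →* H :=
  QuotientGroup.lift _ (Coprod.lift f (FreeGroup.lift g)) (by
    intro z hz
    have h4 : Subgroup.normalClosure (kRel κ Λ c R E) ≤
        (Coprod.lift f (FreeGroup.lift g)).ker := by
      refine Subgroup.normalClosure_le_normal ?_
      rintro _ (⟨a, i, j, h, hκ, rfl⟩ | ⟨a, i, j, h, rfl⟩ | ⟨i, rfl⟩)
      · change Coprod.lift f (FreeGroup.lift g) _ = 1
        simp only [map_mul, map_inv, Coprod.lift_apply_inl, Coprod.lift_apply_inr,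
          FreeGroup.lift_apply_of]
        rw [h1 a i j h hκ, mul_inv_cancel]
      · change Coprod.lift f (FreeGroup.lift g) _ = 1
        rw [map_mul, map_inv, map_alt, map_alt, map_mul, map_mul, map_inv, Coprod.lift_apply_inl,
          Coprod.lift_apply_inr, Coprod.lift_apply_inr, FreeGroup.lift_apply_of,
          FreeGroup.lift_apply_of, h2 a i j h, mul_inv_cancel]
      · change Coprod.lift f (FreeGroup.lift g) _ = 1
        rw [map_pow, Coprod.lift_apply_inr, FreeGroup.lift_apply_of, h3]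
    exact h4 hz)

section

variable (f : Q →* H) (g : I → H)
    (h1 : ∀ a i j, R a i j → κ i = κ j → f a * g i * (f a)⁻¹ = g j)
    (h2 : ∀ a i j, E a i j → alt (f a * g i * (f a)⁻¹) (g j) (Λ.L (κ i) (κ j)) =
      alt (g j) (f a * g i * (f a)⁻¹) (Λ.L (κ i) (κ j))) (h3 : ∀ i, g i ^ c = 1)

theorem lift_q (a : Q) : lift f g h1 h2 h3 (q κ Λ c R E a) = f a := by
  change Coprod.lift f (FreeGroup.lift g) (Coprod.inl a) = f a
  rw [Coprod.lift_apply_inl]

theorem lift_y (i : I) : lift f g h1 h2 h3 (y κ Λ c R E i) = g i := by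
  change Coprod.lift f (FreeGroup.lift g) (Coprod.inr (FreeGroup.of i)) = g i
  rw [Coprod.lift_apply_inr, FreeGroup.lift_apply_of]

end

theorem hom_ext {f g : K κ Λ c R E →* H} (h1 : ∀ a, f (q κ Λ c R E a) = g (q κ Λ c R E a))
    (h2 : ∀ i, f (y κ Λ c R E i) = g (y κ Λ c R E i)) : f = g := by
  refine QuotientGroup.monoidHom_ext _ ?_
  refine Coprod.hom_ext ?_ ?_
  · exact MonoidHom.ext h1
  · exact FreeGroup.ext_hom _ _ h2

end K

/-! ### the Artin group -/

/-- the conjugates of the letters by the elements of `Q`, with their colours -/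
def X : Type := {x : B × K κ Λ c R E // ∃ a i, κ i = x.1 ∧
  x.2 = K.q κ Λ c R E a * K.y κ Λ c R E i * (K.q κ Λ c R E a)⁻¹}

variable {κ Λ c R E}

theorem X.pow (x : X κ Λ c R E) : x.1.2 ^ c = 1 := by
  obtain ⟨a, i, _, h⟩ := x.2
  rw [h, conj_pow, K.pow, mul_one, mul_inv_cancel]

/-- the action of `Q` -/
def X.smul (b : Q) (x : X κ Λ c R E) : X κ Λ c R E :=
  ⟨(x.1.1, K.q κ Λ c R E b * x.1.2 * (K.q κ Λ c R E b)⁻¹), by
    obtain ⟨a, i, h, h'⟩ := x.2
    refine ⟨b * a, i, h, ?_⟩
    change K.q κ Λ c R E b * x.1.2 * (K.q κ Λ c R E b)⁻¹ = _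
    rw [h', map_mul]
    group⟩

theorem X.smul_col (b : Q) (x : X κ Λ c R E) : (X.smul b x).1.1 = x.1.1 := rfl

theorem X.smul_val (b : Q) (x : X κ Λ c R E) :
    (X.smul b x).1.2 = K.q κ Λ c R E b * x.1.2 * (K.q κ Λ c R E b)⁻¹ := rfl

theorem X.smul_one (x : X κ Λ c R E) : X.smul 1 x = x := by
  apply Subtype.ext
  refine Prod.ext rfl ?_
  rw [X.smul_val, map_one]
  group

theorem X.smul_smul (b d : Q) (x : X κ Λ c R E) : X.smul b (X.smul d x) = X.smul (b * d) x := by
  apply Subtype.ext
  refine Prod.ext rfl ?_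
  rw [X.smul_val, X.smul_val, X.smul_val, map_mul]
  group

/-- the permutation of an element of `Q` -/
def X.perm (b : Q) : Equiv.Perm (X κ Λ c R E) where
  toFun := X.smul b
  invFun := X.smul b⁻¹
  left_inv := fun x => by rw [X.smul_smul, inv_mul_cancel, X.smul_one]
  right_inv := fun x => by rw [X.smul_smul, mul_inv_cancel, X.smul_one]

/-- the Artin relation holds -/
def Br (x z : X κ Λ c R E) : Prop :=
  alt x.1.2 z.1.2 (Λ.L x.1.1 z.1.1) = alt z.1.2 x.1.2 (Λ.L x.1.1 z.1.1)

theorem Br.symm {x z : X κ Λ c R E} (h : Br x z) : Br z x := by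
  unfold Br at h ⊢
  rw [Λ.symm z.1.1 x.1.1]
  exact Eq.symm h

theorem br_smul (a : Q) (x z : X κ Λ c R E) : Br (X.smul a x) (X.smul a z) ↔ Br x z := by
  unfold Br
  have h1 : ∀ u v : K κ Λ c R E, ∀ m : ℕ, alt (K.q κ Λ c R E a * u * (K.q κ Λ c R E a)⁻¹)
      (K.q κ Λ c R E a * v * (K.q κ Λ c R E a)⁻¹) m =
      MulAut.conj (K.q κ Λ c R E a) (alt u v m) := by
    intro u v m
    have h2 := map_alt (MulAut.conj (K.q κ Λ c R E a)).toMonoidHom u v m
    exact h2.symm
  rw [X.smul_val, X.smul_val, X.smul_col, X.smul_col, h1, h1]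
  exact (MulAut.conj (K.q κ Λ c R E a)).injective.eq_iff

variable (κ Λ c R E)

open scoped Classical in
/-- the Coxeter matrix -/
noncomputable def Mt : CoxeterMatrix (X κ Λ c R E) where
  M := fun x z => if x = z then 1 else if Br x z then Λ.L x.1.1 z.1.1 else 0
  isSymm := by
    refine Matrix.IsSymm.ext fun x z => ?_
    by_cases h : x = z
    · rw [if_pos h, if_pos h.symm]
    · rw [if_neg h, if_neg (fun h' => h h'.symm), Λ.symm]
      by_cases h' : Br x z
      · rw [if_pos h', if_pos h'.symm]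
      · rw [if_neg h', if_neg (fun h'' => h' h''.symm)]
  diagonal := fun x => if_pos rfl
  off_diagonal := by
    intro x z hxz
    rw [if_neg hxz]
    split_ifs
    · exact Λ.ne_one _ _
    · exact zero_ne_one

variable {κ Λ c R E}

theorem Mt_br {x z : X κ Λ c R E} (h : x ≠ z) (hb : Br x z) :
    Mt κ Λ c R E x z = Λ.L x.1.1 z.1.1 := (if_neg h).trans (if_pos hb)

theorem Mt_nbr {x z : X κ Λ c R E} (h : x ≠ z) (hb : ¬ Br x z) :
    Mt κ Λ c R E x z = 0 := (if_neg h).trans (if_neg hb)

theorem Mt_smul (a : Q) (x z : X κ Λ c R E) :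
    Mt κ Λ c R E (X.smul a x) (X.smul a z) = Mt κ Λ c R E x z := by
  by_cases h : x = z
  · subst h
    rw [CoxeterMatrix.diagonal, CoxeterMatrix.diagonal]
  · have h1 : X.smul a x ≠ X.smul a z := fun h' => h ((X.perm a).injective h')
    by_cases hb : Br x z
    · rw [Mt_br h hb, Mt_br h1 ((br_smul a x z).2 hb)]
      rfl
    · rw [Mt_nbr h hb, Mt_nbr h1 (fun h' => hb ((br_smul a x z).1 h'))]

variable (κ Λ c R E)

/-- the Artin group -/
abbrev W : Type := SH.Sh (Mt κ Λ c R E) c

/-- the generators -/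
noncomputable def si (x : X κ Λ c R E) : W κ Λ c R E := SH.gen (Mt κ Λ c R E) c x

theorem si_br {x z : X κ Λ c R E} (hb : Br x z) :
    alt (si κ Λ c R E x) (si κ Λ c R E z) (Λ.L x.1.1 z.1.1) =
      alt (si κ Λ c R E z) (si κ Λ c R E x) (Λ.L x.1.1 z.1.1) := by
  by_cases h : x = z
  · subst h
    rfl
  · have h1 := SH.rel (M := Mt κ Λ c R E) (c := c) x z
    rw [Mt_br h hb] at h1
    exact h1

theorem w_ext {H : Type} [Group H] {f g : W κ Λ c R E →* H}
    (h : ∀ x, f (si κ Λ c R E x) = g (si κ Λ c R E x)) : f = g := SH.hom_ext h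

/-- the action of an element of `Q` on the Artin group -/
noncomputable def act0 (a : Q) : W κ Λ c R E →* W κ Λ c R E :=
  SH.lift (fun x => si κ Λ c R E (X.smul a x)) (by
    intro x z
    have h := SH.rel (M := Mt κ Λ c R E) (c := c) (X.smul a x) (X.smul a z)
    rw [Mt_smul] at h
    exact h) (fun x => SH.gen_pow _)

theorem act0_si (a : Q) (x : X κ Λ c R E) :
    act0 κ Λ c R E a (si κ Λ c R E x) = si κ Λ c R E (X.smul a x) := SH.lift_gen _ _ _ x

theorem act0_mul (a b : Q) (w : W κ Λ c R E) :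
    act0 κ Λ c R E a (act0 κ Λ c R E b w) = act0 κ Λ c R E (a * b) w := by
  have h : (act0 κ Λ c R E a).comp (act0 κ Λ c R E b) = act0 κ Λ c R E (a * b) := by
    refine w_ext κ Λ c R E fun x => ?_
    rw [MonoidHom.comp_apply, act0_si, act0_si, act0_si, X.smul_smul]
  exact DFunLike.congr_fun h w

theorem act0_one (w : W κ Λ c R E) : act0 κ Λ c R E 1 w = w := by
  have h : act0 κ Λ c R E 1 = MonoidHom.id _ := by
    refine w_ext κ Λ c R E fun x => ?_
    rw [act0_si, X.smul_one]
    rfl
  exact DFunLike.congr_fun h w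

/-- the action of `Q` on the Artin group -/
noncomputable def act : Q →* MulAut (W κ Λ c R E) where
  toFun a :=
    { toFun := act0 κ Λ c R E a
      invFun := act0 κ Λ c R E a⁻¹
      left_inv := fun w => by rw [act0_mul, inv_mul_cancel, act0_one]
      right_inv := fun w => by rw [act0_mul, mul_inv_cancel, act0_one]
      map_mul' := fun v w => map_mul _ v w }
  map_one' := by
    ext w
    exact act0_one κ Λ c R E w
  map_mul' a b := by
    ext w
    exact (act0_mul κ Λ c R E a b w).symm

theorem act_si (a : Q) (x : X κ Λ c R E) :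
    act κ Λ c R E a (si κ Λ c R E x) = si κ Λ c R E (X.smul a x) := act0_si κ Λ c R E a x

/-- the semidirect product -/
abbrev SD : Type := W κ Λ c R E ⋊[act κ Λ c R E] Q

theorem conj_inl (a : Q) (w : W κ Λ c R E) :
    (SemidirectProduct.inr a * SemidirectProduct.inl w * (SemidirectProduct.inr a)⁻¹ :
      SD κ Λ c R E) = SemidirectProduct.inl (act κ Λ c R E a w) := by
  rw [SemidirectProduct.inl_aut, map_inv]

/-- a letter as a conjugate -/
def xy (i : I) : X κ Λ c R E := ⟨(κ i, K.y κ Λ c R E i), 1, i, rfl, by rw [map_one]; group⟩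

/-- the homomorphism to the semidirect product -/
noncomputable def Phi : K κ Λ c R E →* SD κ Λ c R E :=
  K.lift (SemidirectProduct.inr) (fun i => SemidirectProduct.inl (si κ Λ c R E (xy κ Λ c R E i))) (by
    intro a i j h hκ
    rw [conj_inl, act_si]
    congr 2
    exact Subtype.ext (Prod.ext hκ (K.conj h hκ))) (by
    intro a i j h
    rw [conj_inl, act_si, ← map_alt, ← map_alt]
    congr 1
    exact si_br κ Λ c R E (x := X.smul a (xy κ Λ c R E i)) (z := xy κ Λ c R E j) (K.art h)) (by
    intro i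
    rw [← map_pow]
    have h1 : si κ Λ c R E (xy κ Λ c R E i) ^ c = 1 := SH.gen_pow _
    rw [h1, map_one])

/-- the homomorphism from the Artin group -/
noncomputable def psi : W κ Λ c R E →* K κ Λ c R E :=
  SH.lift (fun x => x.1.2) (by
    intro x z
    by_cases h : x = z
    · subst h
      rfl
    · by_cases hb : Br x z
      · rw [Mt_br h hb]
        exact hb
      · rw [Mt_nbr h hb, alt_zero, alt_zero]) (fun x => x.pow)

theorem psi_si (x : X κ Λ c R E) : psi κ Λ c R E (si κ Λ c R E x) = x.1.2 := SH.lift_gen _ _ _ x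

/-- the homomorphism from the semidirect product -/
theorem exists_Psi : ∃ F : SD κ Λ c R E →* K κ Λ c R E,
    (∀ a, F (SemidirectProduct.inr a) = K.q κ Λ c R E a) ∧
    ∀ x, F (SemidirectProduct.inl (si κ Λ c R E x)) = x.1.2 := by
  refine ⟨SemidirectProduct.lift (psi κ Λ c R E) (K.q κ Λ c R E) ?_, fun a => ?_, fun x => ?_⟩
  · intro a
    refine w_ext κ Λ c R E fun x => ?_
    change psi κ Λ c R E (act κ Λ c R E a (si κ Λ c R E x)) =
      K.q κ Λ c R E a * psi κ Λ c R E (si κ Λ c R E x) * (K.q κ Λ c R E a)⁻¹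
    rw [act_si, psi_si, psi_si]
    rfl
  · rw [SemidirectProduct.lift_inr]
  · rw [SemidirectProduct.lift_inl, psi_si]

theorem Phi_injective : Function.Injective (Phi κ Λ c R E) := by
  obtain ⟨F, h1, h2⟩ := exists_Psi κ Λ c R E
  refine Function.LeftInverse.injective (g := F) ?_
  intro x
  have h : F.comp (Phi κ Λ c R E) = MonoidHom.id _ := by
    refine K.hom_ext (fun a => ?_) (fun i => ?_)
    · change F (K.lift _ _ _ _ _ (K.q κ Λ c R E a)) = K.q κ Λ c R E a
      rw [K.lift_q]
      exact h1 a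
    · change F (K.lift _ _ _ _ _ (K.y κ Λ c R E i)) = K.y κ Λ c R E i
      rw [K.lift_y]
      exact h2 _
  exact DFunLike.congr_fun h x

/-- the groups of the finite coloured sets without the label infinity are in the class -/
def Cliques (C : ∀ (G : Type) [Group G], Prop) {B : Type} (Λ : Lab B) (c : ℕ) : Prop :=
  ∀ (A : Type) (_ : Finite A) (κ : A → B), (∀ i j, i ≠ j → Λ.L (κ i) (κ j) ≠ 0) →
    C (SH.Sh (pull Λ κ) c)

/-- the semidirect product is in the class -/
theorem sd_mem {C : ∀ (G : Type) [Group G], Prop} (hC : ClosedE C)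
    (hcox : ∀ (A : Type) [Finite A] (M : CoxeterMatrix A), C M.Group) (hc : Even c)
    (hcl : Cliques C Λ c) (hQ : C Q) : C (SD κ Λ c R E) := by
  have hinj : Function.Injective (SemidirectProduct.inl : W κ Λ c R E →* SD κ Λ c R E) :=
    SemidirectProduct.inl_injective
  have hrange : ∀ w : W κ Λ c R E, (SemidirectProduct.inl w : SD κ Λ c R E) ∈
      (SemidirectProduct.rightHom : SD κ Λ c R E →* Q).ker := by
    intro w
    rw [MonoidHom.mem_ker]
    exact SemidirectProduct.rightHom_inl _
  let e : W κ Λ c R E ≃* (SemidirectProduct.rightHom : SD κ Λ c R E →* Q).ker :=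
    MulEquiv.ofBijective
      ((SemidirectProduct.inl : W κ Λ c R E →* SD κ Λ c R E).codRestrict _ hrange) (by
      constructor
      · intro a b hab
        exact hinj (congrArg Subtype.val hab)
      · rintro ⟨g, hg⟩
        refine ⟨g.left, Subtype.ext ?_⟩
        exact SemidirectProduct.ext rfl (MonoidHom.mem_ker.1 hg).symm)
  have he : ∀ w, ((e w : (SemidirectProduct.rightHom : SD κ Λ c R E →* Q).ker) : SD κ Λ c R E) =
    SemidirectProduct.inl w := fun w => rfl
  refine SH.sh_kern (Mt κ Λ c R E) hC hcox hc (SemidirectProduct.rightHom : SD κ Λ c R E →* Q).ker e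
    ?_ ?_ ?_
  · intro g
    refine ⟨X.perm g.right, g.left, fun i j => Mt_smul g.right i j, fun x => ?_⟩
    rw [he, he]
    have h1 : g = (SemidirectProduct.inl g.left : SD κ Λ c R E) * SemidirectProduct.inr g.right := by
      refine SemidirectProduct.ext ?_ ?_
      · simp
      · simp
    have h2 := conj_inl κ Λ c R E g.right (si κ Λ c R E x)
    rw [act_si] at h2
    calc g * SemidirectProduct.inl (si κ Λ c R E x) * g⁻¹
        = SemidirectProduct.inl g.left * (SemidirectProduct.inr g.right *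
            SemidirectProduct.inl (si κ Λ c R E x) * (SemidirectProduct.inr g.right)⁻¹) *
            (SemidirectProduct.inl g.left)⁻¹ := by
          conv_lhs => rw [h1]
          group
      _ = SemidirectProduct.inl (g.left * si κ Λ c R E (X.smul g.right x) * g.left⁻¹) := by
          rw [h2, map_mul, map_mul, map_inv]
  · exact hC.base.of_injective _ Q (QuotientGroup.kerLift _) (QuotientGroup.kerLift_injective _) hQ
  · intro Y hY hfin
    have : Finite Y := hY.to_subtype
    rw [← SH.range_inc_set]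
    let e' := MonoidHom.ofInjective (SH.inc_inj_fin (Mt κ Λ c R E) (c := c) hc hY)
    refine hC.base.of_injective _ _ e'.symm.toMonoidHom e'.symm.injective ?_
    have h1 : AT.subM (Mt κ Λ c R E) (Function.Embedding.subtype (· ∈ Y)) =
        pull Λ (fun x : Y => x.1.1.1) := by
      have h2 : ∀ i j : Y, AT.subM (Mt κ Λ c R E) (Function.Embedding.subtype (· ∈ Y)) i j =
          pull Λ (fun x : Y => x.1.1.1) i j := by
        intro i j
        by_cases h : i = j
        · subst h
          rw [CoxeterMatrix.diagonal, CoxeterMatrix.diagonal]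
        · rw [pull_ne Λ _ h]
          have h3 : (i : X κ Λ c R E) ≠ j := fun h' => h (Subtype.ext h')
          change Mt κ Λ c R E i j = _
          by_cases hb : Br (i : X κ Λ c R E) j
          · exact Mt_br h3 hb
          · exact absurd (Mt_nbr h3 hb) (hfin i i.2 j j.2)
      exact CoxeterMatrix.ext (funext fun i => funext fun j => h2 i j)
    rw [h1]
    refine hcl Y this _ (fun i j hij => ?_)
    have h3 : (i : X κ Λ c R E) ≠ j := fun h' => hij (Subtype.ext h')
    have h4 := hfin i i.2 j j.2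
    by_cases hb : Br (i : X κ Λ c R E) j
    · rw [Mt_br h3 hb] at h4
      exact h4
    · exact absurd (Mt_nbr h3 hb) h4

/-- **One level.** -/
theorem k_mem {C : ∀ (G : Type) [Group G], Prop} (hC : ClosedE C)
    (hcox : ∀ (A : Type) [Finite A] (M : CoxeterMatrix A), C M.Group) (hc : Even c)
    (hcl : Cliques C Λ c) (hQ : C Q) : C (K κ Λ c R E) :=
  hC.base.of_injective _ _ (Phi κ Λ c R E) (Phi_injective κ Λ c R E)
    (sd_mem κ Λ c R E hC hcox hc hcl hQ)

end Pool.Agent.H91.CZ
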